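import Pool.Agent.R953.UF

/-!
# The edge marginals of 2-forests are not dominated by those of spanning trees

There is a connected graph on `7` vertices with `10` edges (two vertices `5` and `6` joined by the
edge `e`, by three paths of length `2` and by one path of length `3`) in which the edge `e` belongs
to a uniform spanning tree with probability `24/68 = 6/17` and to a uniform `2`-forest with the
larger probability `60/168 = 5/14`.
-/

set_option autoImplicit false

open SimpleGraph

namespace Pool.Agent.Results.MP_83c1a8_pr.TwoForestFails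

open Pool.Agent.R953.UF

/-- The probability that the edge `e` belongs to a uniformly random element of the set `A` of
spanning subgraphs. -/
noncomputable def marginal {V : Type*} (A : Set (SimpleGraph V)) (e : Sym2 V) : ℝ :=
  ({H | H ∈ A ∧ e ∈ H.edgeSet}.ncard : ℝ) / (A.ncard : ℝ)

/-- The spanning trees of `G`. -/
def spanningTrees {V : Type*} (G : SimpleGraph V) : Set (SimpleGraph V) := {H | H ≤ G ∧ H.IsTree}

/-- The `2`-forests of `G`: acyclic spanning subgraphs with exactly two connected components. -/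
def twoForests {V : Type*} (G : SimpleGraph V) : Set (SimpleGraph V) :=
  {H | H ≤ G ∧ H.IsAcyclic ∧ Nat.card H.ConnectedComponent = 2}

/-- The connected spanning subgraphs of `G` with excess `2`, that is, with `|V| + 2` edges. -/
def excessTwo {V : Type*} (G : SimpleGraph V) : Set (SimpleGraph V) :=
  {H | H ≤ G ∧ H.Connected ∧ H.edgeSet.ncard = Nat.card V + 2}

/-- the edges other than `{5, 6}` -/
def es : List (Fin 7 × Fin 7) :=
  [(0, 5), (0, 6), (1, 5), (1, 6), (2, 5), (2, 6), (3, 4), (3, 6), (4, 5)]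

/-- the graph -/
def G : SimpleGraph (Fin 7) := gr (((5, 6) : Fin 7 × Fin 7) :: es)

lemma ok : Ok (⊥ : SimpleGraph (Fin 7)) ((5, 6) :: es) := by
  apply ok_bot <;> decide

lemma count_all (k : ℕ) :
    {H : SimpleGraph (Fin 7) | H ≤ G ∧ ForP k H}.ncard =
      cntF k (((5, 6) : Fin 7 × Fin 7) :: es) (List.range 7) 7 := by
  rw [← cntF_spec k _ _ _ _ ok (Rep.bot 7) isAcyclic_bot]
  congr 1
  ext H
  simp only [G, Set.mem_ofPred_eq, le_gr_iff]

lemma count_with (k : ℕ) :
    {H : SimpleGraph (Fin 7) | (H ≤ G ∧ ForP k H) ∧ s(5, 6) ∈ H.edgeSet}.ncard =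
      cntF k es (mrg (List.range 7) 5 6) 6 := by
  have h1 : IsAcyclic (⊥ ⊔ edge (5 : Fin 7) 6) := by
    rw [isAcyclic_sup_fromEdgeSet_iff]
    refine ⟨isAcyclic_bot, fun h => ?_⟩
    rw [reachable_bot] at h
    exact Or.inl h
  rw [← cntF_spec k es (⊥ ⊔ edge 5 6) (mrg (List.range 7) 5 6) 6 (ok.2.2.2.sup ok.2.2.1)
    (rep_edge (5, 6) (by decide)) h1]
  congr 1
  ext H
  have := mem_edge_iff ok H
  simp only [G, Set.mem_ofPred_eq] at this ⊢
  rw [← this]
  tauto

lemma tree_eq : spanningTrees G = {H | H ≤ G ∧ ForP 1 H} := by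
  ext H
  simp only [spanningTrees, ForP, Set.mem_ofPred_eq]
  rw [← connected_iff_card, isTree_iff]
  tauto

lemma forest_eq : twoForests G = {H | H ≤ G ∧ ForP 2 H} := rfl

lemma conn : G.Connected := by
  have h : {H : SimpleGraph (Fin 7) | H ≤ G ∧ ForP 1 H}.ncard = 68 := by
    rw [count_all]; decide +kernel
  have h1 : {H : SimpleGraph (Fin 7) | H ≤ G ∧ ForP 1 H}.Nonempty := by
    rw [Set.nonempty_iff_ne_empty]
    intro h2
    rw [h2, Set.ncard_empty] at h
    omega
  obtain ⟨H, h2, -, h3⟩ := h1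
  exact ((connected_iff_card H).2 h3).mono h2

lemma card_edges : G.edgeSet.ncard = 10 := by
  have : G.edgeSet = ((((((5, 6) : Fin 7 × Fin 7) :: es).map (fun f => s(f.1, f.2))).toFinset :
      Finset (Sym2 (Fin 7))) : Set (Sym2 (Fin 7))) := by
    ext x
    induction x using Sym2.ind with | _ u v => ?_
    rw [mem_edgeSet, G, gr_adj]
    simp only [List.coe_toFinset, List.mem_map, Set.mem_ofPred_eq]
    constructor
    · rintro ⟨f, h1, h2, -⟩
      exact ⟨f, h1, h2⟩
    · rintro ⟨f, h1, h2⟩
      have h3 : ∀ f ∈ (((5, 6) : Fin 7 × Fin 7) :: es), f.1 ≠ f.2 := by decide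
      exact ⟨f, h1, h2, h3 f h1⟩
  rw [this, Set.ncard_coe_finset]
  decide

/-- **Theorem.** There are a connected graph `G` with `|V| ≥ 2` and `|E| ≥ |V| + 2` (so that there
are connected spanning subgraphs with excess `2`) and an edge `e` of `G` for which the first
inequality fails: `P_UST[ω(e) = 1] = 6/17 < 5/14 = P_2UF[ω(e) = 1]`. -/
theorem result : ∃ (G : SimpleGraph (Fin 7)) (e : Sym2 (Fin 7)), G.Connected ∧ e ∈ G.edgeSet ∧
    7 + 2 ≤ G.edgeSet.ncard ∧ (excessTwo G).Nonempty ∧
    marginal (spanningTrees G) e = 6 / 17 ∧ marginal (twoForests G) e = 5 / 14 ∧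
    ¬ (marginal (twoForests G) e ≤ marginal (spanningTrees G) e ∧
      marginal (spanningTrees G) e ≤ marginal (excessTwo G) e) := by
  have h1 : marginal (spanningTrees G) s(5, 6) = 6 / 17 := by
    unfold marginal
    rw [tree_eq]
    have e1 : cntF 1 (((5, 6) : Fin 7 × Fin 7) :: es) (List.range 7) 7 = 68 := by decide +kernel
    have e2 : cntF 1 es (mrg (List.range 7) 5 6) 6 = 24 := by decide +kernel
    have h3 := count_with 1
    have h4 := count_all 1
    rw [e2] at h3
    rw [e1] at h4
    simp only [Set.mem_ofPred_eq]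
    rw [h3, h4]
    norm_num
  have h2 : marginal (twoForests G) s(5, 6) = 5 / 14 := by
    unfold marginal
    rw [forest_eq]
    have e1 : cntF 2 (((5, 6) : Fin 7 × Fin 7) :: es) (List.range 7) 7 = 168 := by decide +kernel
    have e2 : cntF 2 es (mrg (List.range 7) 5 6) 6 = 60 := by decide +kernel
    have h3 := count_with 2
    have h4 := count_all 2
    rw [e2] at h3
    rw [e1] at h4
    simp only [Set.mem_ofPred_eq]
    rw [h3, h4]
    norm_num
  refine ⟨G, s(5, 6), conn, ?_, ?_, ?_, h1, h2, ?_⟩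
  · rw [mem_edgeSet, G, gr_adj]
    exact ⟨(5, 6), List.mem_cons_self, rfl, by decide⟩
  · rw [card_edges]
    norm_num
  · have h3 := cntC_spec (((5, 6) : Fin 7 × Fin 7) :: es) ⊥ (List.range 7) 7 9 ok (Rep.bot 7)
    have e3 : 0 < cntC (((5, 6) : Fin 7 × Fin 7) :: es) (List.range 7) 7 9 := by decide +kernel
    rw [← h3] at e3
    obtain ⟨H, h4, h5, h6⟩ := (Set.ncard_pos (Set.toFinite _)).1 e3
    refine ⟨H, (le_gr_iff _ _).2 h4, h5, ?_⟩
    rw [h6]
    simp
  · rintro ⟨h3, -⟩
    rw [h1, h2] at h3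
    norm_num at h3

end Pool.Agent.Results.MP_83c1a8_pr.TwoForestFails
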